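import Pool.Agent.H14.TOW.Targets

/-!
# Towers of fibrations: linear disjointness
-/

set_option autoImplicit false

open MvPolynomial Pool.Agent.H14.TOW

namespace Pool.Agent.H49.TOW

/-- a finite extension and an extension in which `F` is algebraically closed -/
theorem ldj_core {F L K : Type} [Field F] [CharZero F] [Field L] [Field K] [Algebra F L]
    [Algebra L K] [Algebra F K] [IsScalarTower F L K] (A : IntermediateField F K)
    [FiniteDimensional F A] (hL : ∀ c : L, IsIntegral F c → c ∈ (algebraMap F L).range) :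
    A.LinearDisjoint L := by
  let pb := Field.powerBasisOfFiniteOfSeparable F A
  have hint : IsIntegral F (pb.gen : K) := (pb.isIntegral_gen).map A.val
  have hmin : minpoly F (pb.gen : K) = minpoly F pb.gen :=
    minpoly.algHom_eq A.val A.val.injective pb.gen
  have hintL : IsIntegral L (pb.gen : K) := hint.tower_top
  have hdvd : minpoly L (pb.gen : K) ∣ (minpoly F (pb.gen : K)).map (algebraMap F L) :=
    minpoly.dvd_map_of_isScalarTower F L (pb.gen : K)
  have hg : (minpoly L (pb.gen : K)).Monic := minpoly.monic hintL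
  have hf : (minpoly F (pb.gen : K)).Monic := minpoly.monic hint
  have hlift := integralClosure.mem_lifts_of_monic_of_dvd_map L hf hg hdvd
  have hlift2 : minpoly L (pb.gen : K) ∈ Polynomial.lifts (algebraMap F L) := by
    rw [Polynomial.lifts_iff_coeff_lifts] at hlift ⊢
    intro n
    obtain ⟨y, hy⟩ := hlift n
    obtain ⟨z, hz⟩ := hL (algebraMap (integralClosure F L) L y) y.2
    exact ⟨z, by rw [hz, hy]⟩
  obtain ⟨q, hq, hqd, hqm⟩ := Polynomial.lifts_and_degree_eq_and_monic hlift2 hg
  have hq0 : Polynomial.aeval (pb.gen : K) q = 0 := by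
    rw [← Polynomial.aeval_map_algebraMap L, hq]
    exact minpoly.aeval L (pb.gen : K)
  have hdeg : (minpoly L (pb.gen : K)).natDegree = pb.dim := by
    have h1 : (minpoly L (pb.gen : K)).natDegree ≤ pb.dim := by
      have h2 := Polynomial.natDegree_le_of_dvd hdvd (hf.map _).ne_zero
      rw [Polynomial.natDegree_map, hmin, pb.natDegree_minpoly] at h2
      exact h2
    have h3 : pb.dim ≤ (minpoly L (pb.gen : K)).natDegree := by
      have h4 := Polynomial.natDegree_le_of_dvd (minpoly.dvd F (pb.gen : K) hq0) hqm.ne_zero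
      rw [hmin, pb.natDegree_minpoly] at h4
      rw [Polynomial.natDegree_eq_of_degree_eq hqd] at h4
      exact h4
    omega
  refine IntermediateField.LinearDisjoint.of_basis_left pb.basis ?_
  have h5 : LinearIndependent L
      (fun i : Fin (minpoly L (pb.gen : K)).natDegree => (pb.gen : K) ^ (i : ℕ)) :=
    linearIndependent_pow (pb.gen : K)
  have h6 := h5.comp (Fin.cast hdeg.symm) (Fin.cast_injective hdeg.symm)
  have h7 : (A.val ∘ pb.basis : Fin pb.dim → K) =
      (fun i : Fin (minpoly L (pb.gen : K)).natDegree => (pb.gen : K) ^ (i : ℕ)) ∘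
        Fin.cast hdeg.symm := by
    funext i
    simp only [Function.comp, PowerBasis.basis_eq_pow, map_pow]
    rfl
  rw [h7]
  exact h6

theorem pf_LDJ (_h1 : T_LIN) : T_LDJ := by
  intro k K _ _ _ _ σ E σE hσ hE hfin e γ hγ
  obtain ⟨e0, β, hβ⟩ := hfin
  let F : IntermediateField k K := (E.val.comp σE).fieldRange
  have hFmem : ∀ x : K, x ∈ F ↔ ∃ y : E, (σE y : K) = x := by
    intro x
    exact AlgHom.mem_fieldRange
  have hFE : F ≤ E := by
    intro x hx
    obtain ⟨y, rfl⟩ := (hFmem x).1 hx
    exact (σE y).2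
  have hFL : F ≤ σ.fieldRange := by
    intro x hx
    obtain ⟨y, rfl⟩ := (hFmem x).1 hx
    exact AlgHom.mem_fieldRange.2 ⟨y, (hσ y).symm⟩
  let A : IntermediateField F K := IntermediateField.extendScalars hFE
  let L : IntermediateField F K := IntermediateField.extendScalars hFL
  have hAmem : ∀ x : K, x ∈ A ↔ x ∈ E := fun x => IntermediateField.mem_extendScalars hFE
  have hLmem : ∀ x : K, x ∈ L ↔ ∃ y, σ y = x := fun x =>
    (IntermediateField.mem_extendScalars hFL).trans AlgHom.mem_fieldRange
  haveI : CharZero K := charZero_of_injective_algebraMap (algebraMap k K).injective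
  haveI : CharZero F := charZero_of_injective_algebraMap (algebraMap k F).injective
  haveI : FiniteDimensional F A := by
    refine Module.finite_def.2 (Submodule.fg_def.2
      ⟨Set.range (fun i => (⟨(β i : K), (hAmem _).2 (β i).2⟩ : A)), Set.finite_range _, ?_⟩)
    rw [eq_top_iff]
    rintro ⟨a, ha⟩ -
    obtain ⟨c, hc⟩ := hβ ⟨a, (hAmem a).1 ha⟩
    rw [Submodule.mem_span_range_iff_exists_fun]
    refine ⟨fun i => ⟨(σE (c i) : K), (hFmem _).2 ⟨c i, rfl⟩⟩, ?_⟩
    apply Subtype.ext
    have h2 : a = ∑ i, (β i : K) * (σE (c i) : K) := by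
      have h3 := congrArg (E.val) hc
      rw [map_sum] at h3
      simpa using h3
    rw [IntermediateField.coe_sum]
    refine Eq.trans (Finset.sum_congr rfl fun i _ => ?_) h2.symm
    change (σE (c i) : K) * (β i : K) = _
    rw [mul_comm]
  have hdis : A.LinearDisjoint L := by
    refine ldj_core (L := L) A fun c hc => ?_
    obtain ⟨b, hb⟩ := (hLmem c).1 c.2
    let f : E →+* F := ((E.val.comp σE).toRingHom).codRestrict F
      (fun x => (hFmem _).2 ⟨x, rfl⟩)
    have hfs : Function.Surjective f := by
      rintro ⟨x, hx⟩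
      obtain ⟨y, hy⟩ := (hFmem x).1 hx
      exact ⟨y, Subtype.ext hy⟩
    obtain ⟨P, hP, hP0⟩ := hc
    obtain ⟨P', hP'⟩ := Polynomial.map_surjective f hfs P
    have hP1 : Polynomial.eval₂ (algebraMap F K) (c : K) P = 0 := by
      have h1 := congrArg (algebraMap L K) hP0
      rw [Polynomial.hom_eval₂, map_zero] at h1
      exact h1
    have hcomp : (algebraMap F K).comp f = (σ : K →+* K).comp (algebraMap E K) := by
      apply RingHom.ext
      intro x
      exact hσ x
    have hbE : b ∈ E := by
      apply hE
      refine ⟨P', ?_, ?_⟩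
      · rintro rfl
        rw [Polynomial.map_zero] at hP'
        rw [← hP'] at hP
        exact Polynomial.not_monic_zero hP
      · have h2 : σ (Polynomial.aeval b P') = 0 := by
          rw [Polynomial.aeval_def]
          have h3 := Polynomial.hom_eval₂ P' (algebraMap E K) (σ : K →+* K) b
          have h4 : (σ : K →+* K) b = (c : K) := hb
          rw [← hcomp, h4, ← Polynomial.eval₂_map, hP', hP1] at h3
          exact h3
        exact (map_eq_zero_iff σ σ.injective).1 h2
    refine ⟨⟨(c : K), (hFmem _).2 ⟨⟨b, hbE⟩, ?_⟩⟩, Subtype.ext rfl⟩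
    rw [hσ]
    exact hb
  have hlin : LinearIndependent F (fun i => (⟨(γ i : K), (hAmem _).2 (γ i).2⟩ : A)) := by
    rw [Fintype.linearIndependent_iff]
    intro g hg i
    have hc : ∀ i, ∃ c : E, (σE c : K) = g i := fun i => (hFmem _).1 (g i).2
    choose c hc using hc
    have h1 : ∑ i, γ i * σE (c i) = 0 := by
      apply Subtype.ext
      have h2 := congrArg (Subtype.val) hg
      rw [IntermediateField.coe_sum] at h2 ⊢
      refine Eq.trans (Finset.sum_congr rfl fun i _ => ?_) h2
      change (γ i : K) * (σE (c i) : K) = (g i : K) * (γ i : K)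
      rw [hc i, mul_comm]
    have h2 := hγ c h1 i
    apply Subtype.ext
    rw [← hc i, h2, map_zero]
    rfl
  have hres := hdis.linearIndependent_left hlin
  rw [Fintype.linearIndependent_iff] at hres
  intro c hc i
  have h3 := hres (fun i => ⟨σ (c i), (hLmem _).2 ⟨c i, rfl⟩⟩) (by
    rw [← hc]
    refine Finset.sum_congr rfl fun i _ => ?_
    change σ (c i) * (γ i : K) = _
    rw [mul_comm]) i
  have h4 : σ (c i) = 0 := congrArg Subtype.val h3
  exact (map_eq_zero_iff σ σ.injective).1 h4

end Pool.Agent.H49.TOW
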