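import Pool.Agent.H14.TOW.Targets

/-!
# Towers of fibrations: linear algebra over the image of `σ`
-/

set_option autoImplicit false

open MvPolynomial Pool.Agent.H14.TOW

namespace Pool.Agent.H49.TOW

section

variable {k K : Type} [Field k] [Field K] [Algebra k K] {ι : Type} [Fintype ι]

theorem ind_iff (σ : K →ₐ[k] K) (β : ι → K) : Ind σ β ↔ LinearIndependent σ.fieldRange β := by
  rw [Fintype.linearIndependent_iff]
  constructor
  · intro h g hg i
    have hc : ∀ i, ∃ c : K, σ c = g i := fun i => (AlgHom.mem_fieldRange (f := σ)).1 (g i).2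
    choose c hc using hc
    have h1 : ∑ i, β i * σ (c i) = 0 := by
      rw [← hg]
      refine Finset.sum_congr rfl fun i _ => ?_
      rw [hc i, IntermediateField.smul_def, smul_eq_mul, mul_comm]
    have h2 := h c h1 i
    apply Subtype.ext
    rw [← hc i, h2, map_zero]
    rfl
  · intro h c hc i
    have h1 := h (fun i => ⟨σ (c i), AlgHom.mem_fieldRange.2 ⟨c i, rfl⟩⟩) (by
      rw [← hc]
      refine Finset.sum_congr rfl fun i _ => ?_
      rw [IntermediateField.smul_def, smul_eq_mul, mul_comm]) i
    have h2 : σ (c i) = 0 := congrArg Subtype.val h1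
    exact (map_eq_zero_iff σ σ.injective).1 h2

theorem cmb_iff (σ : K →ₐ[k] K) (β : ι → K) (a : K) :
    Cmb σ β a ↔ a ∈ Submodule.span σ.fieldRange (Set.range β) := by
  rw [Submodule.mem_span_range_iff_exists_fun]
  constructor
  · rintro ⟨c, hc⟩
    refine ⟨fun i => ⟨σ (c i), AlgHom.mem_fieldRange.2 ⟨c i, rfl⟩⟩, ?_⟩
    rw [hc]
    refine Finset.sum_congr rfl fun i _ => ?_
    rw [IntermediateField.smul_def, smul_eq_mul, mul_comm]
  · rintro ⟨g, hg⟩
    have hc : ∀ i, ∃ c : K, σ c = g i := fun i => (AlgHom.mem_fieldRange (f := σ)).1 (g i).2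
    choose c hc using hc
    refine ⟨c, ?_⟩
    rw [← hg]
    refine Finset.sum_congr rfl fun i _ => ?_
    rw [hc i, IntermediateField.smul_def, smul_eq_mul, mul_comm]

end

theorem pf_LIN : T_LIN := by
  intro k K _ _ _ σ ι ι' _ _ β γ hβ hγ
  rw [ind_iff] at hγ
  have hle : Submodule.span σ.fieldRange (Set.range γ) ≤
      Submodule.span σ.fieldRange (Set.range β) := by
    rw [Submodule.span_le]
    rintro _ ⟨i, rfl⟩
    exact (cmb_iff σ β _).1 (hβ i)
  have h1 : Module.finrank σ.fieldRange (Submodule.span σ.fieldRange (Set.range γ)) =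
      Fintype.card ι' := finrank_span_eq_card hγ
  have h2 : Module.finrank σ.fieldRange (Submodule.span σ.fieldRange (Set.range β)) ≤
      Fintype.card ι := finrank_range_le_card β
  haveI : FiniteDimensional σ.fieldRange (Submodule.span σ.fieldRange (Set.range β)) :=
    FiniteDimensional.span_of_finite _ (Set.finite_range β)
  have h3 := Submodule.finrank_mono hle
  refine ⟨by omega, fun h4 => ?_⟩
  have h5 : Submodule.span σ.fieldRange (Set.range γ) =
      Submodule.span σ.fieldRange (Set.range β) :=
    Submodule.eq_of_le_of_finrank_le hle (by omega)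
  refine ⟨?_, fun a ha => ?_⟩
  · rw [ind_iff, linearIndependent_iff_card_le_finrank_span]
    change Fintype.card ι ≤ Module.finrank σ.fieldRange (Submodule.span σ.fieldRange (Set.range β))
    omega
  · rw [cmb_iff] at ha ⊢
    rw [h5]
    exact ha

end Pool.Agent.H49.TOW
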