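import Pool.Agent.H14.TOW.Targets

/-!
# Towers of fibrations: the ideal of a point
-/

set_option autoImplicit false

open MvPolynomial Pool.Agent.H14.TOW

namespace Pool.Agent.H49.TOW

theorem coeff_aev {k κ : Type} [Field k] [Field κ] [Algebra k κ] {L : ℕ} (v : Fin L → κ)
    (c : MvPolynomial (Fin L) k) (t : ℕ) :
    (aeval (fun i => Polynomial.C (v i) * Polynomial.X) c : Polynomial κ).coeff t =
      aeval v (homogeneousComponent t c) := by
  classical
  induction c using MvPolynomial.induction_on' with
  | monomial s a =>
    have h1 : (aeval (fun i => Polynomial.C (v i) * Polynomial.X) (monomial s a) :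
        Polynomial κ) = Polynomial.C (aeval v (monomial s a)) * Polynomial.X ^ s.degree := by
      rw [aeval_monomial, aeval_monomial, Finsupp.prod, Finsupp.prod]
      simp only [mul_pow, Finset.prod_mul_distrib, Finset.prod_pow_eq_pow_sum]
      rw [Polynomial.C_mul, map_prod]
      simp only [Polynomial.C_pow]
      rw [mul_assoc, IsScalarTower.algebraMap_apply k κ (Polynomial κ),
        ← Polynomial.C_eq_algebraMap]
      rfl
    rw [h1, Polynomial.coeff_C_mul_X_pow]
    by_cases h : t = s.degree
    · rw [if_pos h, homogeneousComponent_of_mem (n := s.degree), if_pos h]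
      exact isHomogeneous_monomial a rfl
    · rw [if_neg h, homogeneousComponent_of_mem (n := s.degree), if_neg h, map_zero]
      exact isHomogeneous_monomial a rfl
  | add p q hp hq =>
    rw [map_add, Polynomial.coeff_add, hp, hq, map_add, map_add]

theorem pf_PID : T_PID := by
  intro k κ _ _ _ L v
  have hmem : ∀ c : MvPolynomial (Fin L) k,
      (c ∈ pid v ↔ ∀ t, aeval v (homogeneousComponent t c) = 0) := by
    intro c
    rw [pid, RingHom.mem_ker]
    constructor
    · intro h t
      have h1 := coeff_aev v c t
      rw [← h1]
      have h2 : (aeval (fun i => Polynomial.C (v i) * Polynomial.X) c : Polynomial κ) = 0 := h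
      rw [h2, Polynomial.coeff_zero]
    · intro h
      apply Polynomial.ext
      intro t
      rw [Polynomial.coeff_zero, ← h t]
      exact coeff_aev v c t
  have hhom : ∀ (c : MvPolynomial (Fin L) k) (t : ℕ), c.IsHomogeneous t →
      (c ∈ pid v ↔ aeval v c = 0) := by
    intro c t hc
    rw [hmem]
    constructor
    · intro h
      have h1 := h t
      rw [homogeneousComponent_of_mem hc, if_pos rfl] at h1
      exact h1
    · intro h s
      rw [homogeneousComponent_of_mem hc]
      split_ifs
      · exact h
      · exact map_zero _
  refine ⟨RingHom.ker_isPrime _, fun c => ⟨hmem c, fun h t => ?_, hhom c⟩⟩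
  rw [hhom _ t (homogeneousComponent_isHomogeneous t c)]
  exact (hmem c).1 h t

end Pool.Agent.H49.TOW
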