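import Pool.Agent.H14.TOW.Targets

/-!
# Towers of fibrations: the degree grows
-/

set_option autoImplicit false

open MvPolynomial Pool.Agent.H14.TOW

namespace Pool.Agent.H49.TOW

theorem pf_STR (h1 : T_LIN) (h2 : T_LDJ) : T_STR := by
  intro k K _ _ _ _ σ E E' σE σE' hσ hσ' hEE hE hex e e' γ β hγ hγs _ hβs
  obtain ⟨a, ha, hna⟩ := hex
  have hI : Ind σ (fun i => (γ i : K)) := h2 k K σ E σE hσ hE ⟨e, γ, hγs⟩ e γ hγ
  have hI' : Ind σE' (fun i => (⟨(γ i : K), hEE (γ i).2⟩ : E')) := by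
    intro c hc i
    have h3 : ∑ i, (γ i : K) * σ (c i : K) = 0 := by
      have h4 := congrArg (Subtype.val) hc
      rw [IntermediateField.coe_sum] at h4
      rw [← show ((0 : E') : K) = 0 from rfl, ← h4]
      refine Finset.sum_congr rfl fun i _ => ?_
      rw [← hσ' (c i)]
      rfl
    exact Subtype.ext (hI (fun i => (c i : K)) h3 i)
  obtain ⟨h3, h4⟩ := h1 k E' σE' (Fin e') (Fin e) β _ (fun i => hβs _) hI'
  rw [Fintype.card_fin, Fintype.card_fin] at h3 h4
  by_contra hlt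
  obtain ⟨-, h5⟩ := h4 (by omega)
  obtain ⟨c, hc⟩ := h5 ⟨a, ha⟩ (hβs _)
  apply hna
  have h6 : a = ∑ i, (γ i : K) * σ (c i : K) := by
    have h7 := congrArg (Subtype.val) hc
    rw [IntermediateField.coe_sum] at h7
    have h8 : a = ∑ i, ((⟨(γ i : K), hEE (γ i).2⟩ * σE' (c i) : E') : K) := h7
    rw [h8]
    refine Finset.sum_congr rfl fun i _ => ?_
    rw [← hσ' (c i)]
    rfl
  rw [h6]
  refine sum_mem fun i _ => mul_mem ?_ ?_
  · exact IntermediateField.subset_adjoin k _ (Or.inl (γ i).2)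
  · exact IntermediateField.subset_adjoin k _ (Or.inr ⟨(c i : K), (c i).2, rfl⟩)

end Pool.Agent.H49.TOW
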